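import Pool.Agent.N929.EX.Stm

set_option autoImplicit false

namespace Pool.Agent.N232.EX

open Pool.Agent.N929.EX Finset

/-- symmetric products of binomial coefficients -/
theorem aux (x y l : ℕ) (hx : l ^ 2 ≤ x) (hy : l ^ 2 ≤ y) :
    ((x : ℝ) - (l : ℝ) ^ 2) * ((y : ℝ) - (l : ℝ) ^ 2) * ((x + y).choose x : ℝ) ^ 2 ≤
      (x : ℝ) * y * (((x + y).choose (x - l) : ℝ) * ((x + y).choose (x + l) : ℝ)) := by
  induction l with
  | zero => simp [sq, mul_assoc]
  | succ l ih =>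
    have hx' : l ^ 2 ≤ x := le_trans (Nat.pow_le_pow_left (Nat.le_succ l) 2) hx
    have hy' : l ^ 2 ≤ y := le_trans (Nat.pow_le_pow_left (Nat.le_succ l) 2) hy
    have ih := ih hx' hy'
    have hlx : l + 1 ≤ x := le_trans (by nlinarith) hx
    have hly : l + 1 ≤ y := le_trans (by nlinarith) hy
    have e1 : ((x + y).choose (x + (l + 1)) : ℝ) * ((x : ℝ) + l + 1) =
        ((x + y).choose (x + l) : ℝ) * ((y : ℝ) - l) := by
      have h := Nat.choose_succ_right_eq (x + y) (x + l)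
      have h2 : x + y - (x + l) = y - l := by omega
      rw [h2] at h
      have h3 : ((y - l : ℕ) : ℝ) = (y : ℝ) - l := by
        rw [Nat.cast_sub (by omega)]
      have h4 := congrArg (fun z : ℕ => (z : ℝ)) h
      push_cast at h4
      rw [h3] at h4
      rw [← h4]
      simp [add_assoc]
    have e2 : ((x + y).choose (x - l) : ℝ) * ((x : ℝ) - l) =
        ((x + y).choose (x - (l + 1)) : ℝ) * ((y : ℝ) + l + 1) := by
      have h := Nat.choose_succ_right_eq (x + y) (x - (l + 1))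
      have h1 : x - (l + 1) + 1 = x - l := by omega
      have h2 : x + y - (x - (l + 1)) = y + l + 1 := by omega
      rw [h2, h1] at h
      have h3 : ((x - l : ℕ) : ℝ) = (x : ℝ) - l := by
        rw [Nat.cast_sub (by omega)]
      have h4 := congrArg (fun z : ℕ => (z : ℝ)) h
      push_cast at h4
      rw [h3] at h4
      rw [h4]
    have hxr : ((l : ℝ) + 1) ^ 2 ≤ x := by exact_mod_cast hx
    have hyr : ((l : ℝ) + 1) ^ 2 ≤ y := by exact_mod_cast hy
    have hl0 : (0 : ℝ) ≤ l := Nat.cast_nonneg l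
    have hxl : (l : ℝ) + 1 ≤ x := by exact_mod_cast hlx
    have hyl : (l : ℝ) + 1 ≤ y := by exact_mod_cast hly
    set P := ((x + y).choose (x - l) : ℝ) with hP
    set Q := ((x + y).choose (x + l) : ℝ) with hQ
    set P' := ((x + y).choose (x - (l + 1)) : ℝ) with hP'
    set Q' := ((x + y).choose (x + (l + 1)) : ℝ) with hQ'
    set c := ((x + y).choose x : ℝ) with hc
    have key1 : ((x : ℝ) - ((l : ℝ) + 1) ^ 2) * ((x : ℝ) + l + 1) ≤
        ((x : ℝ) - (l : ℝ) ^ 2) * ((x : ℝ) - l) := by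
      nlinarith [pow_nonneg hl0 3, pow_nonneg hl0 2]
    have key2 : ((y : ℝ) - ((l : ℝ) + 1) ^ 2) * ((y : ℝ) + l + 1) ≤
        ((y : ℝ) - (l : ℝ) ^ 2) * ((y : ℝ) - l) := by
      nlinarith [pow_nonneg hl0 3, pow_nonneg hl0 2]
    have n1 : 0 ≤ ((x : ℝ) - ((l : ℝ) + 1) ^ 2) * ((x : ℝ) + l + 1) :=
      mul_nonneg (by linarith) (by linarith)
    have n2 : 0 ≤ ((y : ℝ) - ((l : ℝ) + 1) ^ 2) * ((y : ℝ) + l + 1) :=
      mul_nonneg (by linarith) (by linarith)
    have n3 : 0 ≤ ((x : ℝ) - (l : ℝ) ^ 2) * ((x : ℝ) - l) := le_trans n1 key1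
    have key : ((x : ℝ) - ((l : ℝ) + 1) ^ 2) * ((x : ℝ) + l + 1) *
        (((y : ℝ) - ((l : ℝ) + 1) ^ 2) * ((y : ℝ) + l + 1)) ≤
        ((x : ℝ) - (l : ℝ) ^ 2) * ((x : ℝ) - l) * (((y : ℝ) - (l : ℝ) ^ 2) * ((y : ℝ) - l)) :=
      mul_le_mul key1 key2 n2 n3
    have hpos : 0 < ((x : ℝ) + l + 1) * ((y : ℝ) + l + 1) := by positivity
    have hxl' : 0 ≤ ((x : ℝ) - l) * ((y : ℝ) - l) := mul_nonneg (by linarith) (by linarith)
    have h1 : ((x : ℝ) - (l : ℝ) ^ 2) * ((y : ℝ) - (l : ℝ) ^ 2) * c ^ 2 *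
        (((x : ℝ) - l) * ((y : ℝ) - l)) ≤ (x : ℝ) * y * (P * Q) * (((x : ℝ) - l) * ((y : ℝ) - l)) :=
      mul_le_mul_of_nonneg_right ih hxl'
    have h2 : (x : ℝ) * y * (P * Q) * (((x : ℝ) - l) * ((y : ℝ) - l)) =
        (x : ℝ) * y * (P' * Q') * (((x : ℝ) + l + 1) * ((y : ℝ) + l + 1)) := by
      calc (x : ℝ) * y * (P * Q) * (((x : ℝ) - l) * ((y : ℝ) - l)) =
          (x : ℝ) * y * ((P * ((x : ℝ) - l)) * (Q * ((y : ℝ) - l))) := by ring
        _ = (x : ℝ) * y * ((P' * ((y : ℝ) + l + 1)) * (Q' * ((x : ℝ) + l + 1))) := by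
          rw [e2, e1]
        _ = _ := by ring
    have h3 : (((x : ℝ) - ((l : ℝ) + 1) ^ 2) * ((y : ℝ) - ((l : ℝ) + 1) ^ 2) * c ^ 2) *
        (((x : ℝ) + l + 1) * ((y : ℝ) + l + 1)) ≤
        ((x : ℝ) - (l : ℝ) ^ 2) * ((y : ℝ) - (l : ℝ) ^ 2) * c ^ 2 *
        (((x : ℝ) - l) * ((y : ℝ) - l)) := by
      have := mul_le_mul_of_nonneg_right key (sq_nonneg c)
      calc _ = ((x : ℝ) - ((l : ℝ) + 1) ^ 2) * ((x : ℝ) + l + 1) *
        (((y : ℝ) - ((l : ℝ) + 1) ^ 2) * ((y : ℝ) + l + 1)) * c ^ 2 := by ring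
        _ ≤ _ := this
        _ = _ := by ring
    have h4 := le_trans h3 (le_trans h1 (le_of_eq h2))
    have h5 := le_of_mul_le_mul_right h4 hpos
    push_cast
    exact h5

/-- the square of a binomial coefficient and a symmetric product -/
theorem sqb (S x l : ℕ) (hx : 4 * l ^ 2 ≤ x) (hy : x + 4 * l ^ 2 ≤ S) :
    (S.choose x : ℝ) ^ 2 ≤ 2 * ((S.choose (x - l) : ℝ) * (S.choose (x + l) : ℝ)) := by
  obtain ⟨y, rfl⟩ : ∃ y, S = x + y := ⟨S - x, by omega⟩
  have hy' : 4 * l ^ 2 ≤ y := by omega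
  rcases Nat.eq_zero_or_pos l with h0 | h0
  · subst h0
    simp only [Nat.sub_zero, Nat.add_zero]
    nlinarith [sq_nonneg ((x + y).choose x : ℝ)]
  · have h := aux x y l (by omega) (by omega)
    have hl : 0 < l ^ 2 := by positivity
    have hxr : 4 * (l : ℝ) ^ 2 ≤ x := by exact_mod_cast hx
    have hyr : 4 * (l : ℝ) ^ 2 ≤ y := by exact_mod_cast hy'
    have hx0 : (0 : ℝ) < x := by
      have : 0 < x := by omega
      exact_mod_cast this
    have hy0 : (0 : ℝ) < y := by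
      have : 0 < y := by omega
      exact_mod_cast this
    set P := ((x + y).choose (x - l) : ℝ) with hP
    set Q := ((x + y).choose (x + l) : ℝ) with hQ
    set c := ((x + y).choose x : ℝ) with hc
    have k1 : 3 / 4 * (x : ℝ) ≤ (x : ℝ) - (l : ℝ) ^ 2 := by linarith
    have k2 : 3 / 4 * (y : ℝ) ≤ (y : ℝ) - (l : ℝ) ^ 2 := by linarith
    have k3 : 3 / 4 * (x : ℝ) * (3 / 4 * (y : ℝ)) ≤
        ((x : ℝ) - (l : ℝ) ^ 2) * ((y : ℝ) - (l : ℝ) ^ 2) :=
      mul_le_mul k1 k2 (by positivity) (by linarith)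
    have k4 := mul_le_mul_of_nonneg_right k3 (sq_nonneg c)
    have k5 : (9 / 16 * c ^ 2) * ((x : ℝ) * y) ≤ (P * Q) * ((x : ℝ) * y) := by
      calc _ = 3 / 4 * (x : ℝ) * (3 / 4 * (y : ℝ)) * c ^ 2 := by ring
        _ ≤ _ := k4
        _ ≤ _ := h
        _ = _ := by ring
    have k6 := le_of_mul_le_mul_right k5 (by positivity)
    nlinarith [sq_nonneg c]

theorem ch_nonneg (S : ℕ) (x : ℤ) : 0 ≤ ch S x := Nat.cast_nonneg _

/-- the same for integer arguments -/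
theorem chs (S : ℕ) (A : ℕ) (x i : ℤ) (hi : |i| ≤ A) (hx : 4 * (A : ℤ) ^ 2 ≤ x)
    (hy : x + 4 * (A : ℤ) ^ 2 ≤ S) : ch S x ^ 2 ≤ 2 * (ch S (x + i) * ch S (x - i)) := by
  have main : ∀ l : ℕ, (l : ℤ) ≤ A → ch S x ^ 2 ≤ 2 * (ch S (x - l) * ch S (x + l)) := by
    intro l hl
    have hl' : l ≤ A := by exact_mod_cast hl
    obtain ⟨z, rfl⟩ : ∃ z : ℕ, x = z := ⟨x.toNat, by
      have : (0 : ℤ) ≤ x := le_trans (by positivity) hx
      omega⟩
    have h1 : l ^ 2 ≤ A ^ 2 := Nat.pow_le_pow_left hl' 2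
    have h2 : 4 * A ^ 2 ≤ z := by exact_mod_cast hx
    have h3 : z + 4 * A ^ 2 ≤ S := by exact_mod_cast hy
    have h := sqb S z l (by omega) (by omega)
    have h4 : l ≤ z := by nlinarith
    have e1 : ((z : ℤ) - (l : ℤ)).toNat = z - l := by omega
    have e2 : ((z : ℤ) + (l : ℤ)).toNat = z + l := by omega
    have e3 : ((z : ℤ)).toNat = z := by omega
    unfold ch
    rw [e1, e2, e3]
    exact h
  rcases abs_cases i with ⟨h, h'⟩ | ⟨h, h'⟩
  · have := main i.natAbs (by omega)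
    have e : ((i.natAbs : ℕ) : ℤ) = i := by omega
    rw [e] at this
    linarith [mul_comm (ch S (x - i)) (ch S (x + i))]
  · have := main i.natAbs (by omega)
    have e : ((i.natAbs : ℕ) : ℤ) = -i := by omega
    rw [e] at this
    have e1 : x - -i = x + i := by ring
    have e2 : x + -i = x - i := by ring
    rw [e1, e2] at this
    exact this

/-- two cells -/
theorem two (S S' : ℕ) (x x' : ℤ) (A : ℕ) (h1 : 4 * (A : ℤ) ^ 2 ≤ x)
    (h2 : x + 4 * (A : ℤ) ^ 2 ≤ S) (h3 : 4 * (A : ℤ) ^ 2 ≤ x') (h4 : x' + 4 * (A : ℤ) ^ 2 ≤ S') :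
    ((A : ℝ) + 1) * (ch S x * ch S' x') ≤
      ∑ i ∈ range (2 * A + 1), ch S (x + ((i : ℤ) - A)) * ch S' (x' - ((i : ℤ) - A)) := by
  set f : ℤ → ℝ := fun i => ch S (x + i) * ch S' (x' - i) with hf
  have hfn : ∀ i, 0 ≤ f i := fun i => mul_nonneg (ch_nonneg _ _) (ch_nonneg _ _)
  have hf0 : f 0 = ch S x * ch S' x' := by simp [hf]
  have hpair : ∀ i : ℤ, |i| ≤ A → f 0 ≤ f i + f (-i) := by
    intro i hi
    have a1 := chs S A x i hi h1 h2
    have a2 := chs S' A x' i hi h3 h4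
    have a3 : f 0 ^ 2 ≤ 4 * (f i * f (-i)) := by
      have b1 : f 0 ^ 2 = ch S x ^ 2 * ch S' x' ^ 2 := by rw [hf0]; ring
      have b2 : 4 * (f i * f (-i)) = 2 * (ch S (x + i) * ch S (x - i)) *
          (2 * (ch S' (x' + i) * ch S' (x' - i))) := by
        simp only [hf]
        have e1 : x + -i = x - i := by ring
        have e2 : x' - -i = x' + i := by ring
        rw [e1, e2]
        ring
      rw [b1, b2]
      exact mul_le_mul a1 a2 (sq_nonneg _) (by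
        have := mul_nonneg (ch_nonneg S (x + i)) (ch_nonneg S (x - i))
        linarith)
    have a4 : f 0 ^ 2 ≤ (f i + f (-i)) ^ 2 := by nlinarith [sq_nonneg (f i - f (-i))]
    exact le_of_sq_le_sq a4 (add_nonneg (hfn _) (hfn _))
  have hsum : ∑ i ∈ range (2 * A + 1), f ((i : ℤ) - A) = ∑ i ∈ range (2 * A + 1), f (-((i : ℤ) - A)) := by
    rw [← Finset.sum_range_reflect]
    refine Finset.sum_congr rfl ?_
    intro i hi
    have hi' := Finset.mem_range.mp hi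
    congr 1
    have : ((2 * A + 1 - 1 - i : ℕ) : ℤ) = 2 * A - i := by omega
    rw [this]
    ring
  have h5 : ∑ i ∈ range (2 * A + 1), (f 0 + if i = A then f 0 else 0) ≤
      ∑ i ∈ range (2 * A + 1), (f ((i : ℤ) - A) + f (-((i : ℤ) - A))) := by
    refine Finset.sum_le_sum ?_
    intro i hi
    have hi' := Finset.mem_range.mp hi
    by_cases h : i = A
    · subst h
      simp
    · simp only [h, if_false, add_zero]
      exact hpair _ (by rw [abs_le]; constructor <;> omega)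
  rw [Finset.sum_add_distrib, Finset.sum_add_distrib, ← hsum, Finset.sum_const, Finset.card_range,
    Finset.sum_ite_eq' , if_pos (Finset.mem_range.mpr (by omega)), nsmul_eq_mul] at h5
  push_cast at h5
  have h6 : ∑ i ∈ range (2 * A + 1), ch S (x + ((i : ℤ) - A)) * ch S' (x' - ((i : ℤ) - A)) =
      ∑ i ∈ range (2 * A + 1), f ((i : ℤ) - A) := rfl
  rw [h6, ← hf0]
  linarith

theorem prod3 (g : Fin 3 → ℝ) (s s' r : Fin 3) (h1 : s ≠ s') (h2 : s ≠ r) (h3 : s' ≠ r) :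
    ∏ t : Fin 3, g t = g s * (g s' * g r) := by
  rw [Fin.prod_univ_three]
  fin_cases s <;> fin_cases s' <;> fin_cases r <;> simp at h1 h2 h3 ⊢ <;> ring

/-- BIN: products of binomial coefficients are spread out -/
theorem bin : S_BIN := by
  intro s s' r h1 h2 h3 S j A B a1 a2 b1 b2 c1 c2
  have hR : ∀ a b : ℤ, ∏ t : Fin 3, ch (S t) ((j t : ℤ) + dl s s' r a b t) =
      ch (S s) ((j s : ℤ) + a) * (ch (S s') ((j s' : ℤ) + b) * ch (S r) ((j r : ℤ) - a - b)) := by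
    intro a b
    rw [prod3 _ s s' r h1 h2 h3]
    have e1 : dl s s' r a b s = a := by simp [dl, h1, h2]
    have e2 : dl s s' r a b s' = b := by simp [dl, h1.symm, h3]
    have e3 : dl s s' r a b r = -(a + b) := by simp [dl, h2.symm, h3.symm]
    rw [e1, e2, e3]
    have e4 : (j r : ℤ) + -(a + b) = (j r : ℤ) - a - b := by ring
    rw [e4]
  have hL : ∏ t : Fin 3, ch (S t) (j t) = ch (S s) (j s) * (ch (S s') (j s') * ch (S r) (j r)) :=
    prod3 _ s s' r h1 h2 h3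
  rw [hL]
  have a1' : 4 * (A : ℤ) ^ 2 ≤ j s := by exact_mod_cast a1
  have a2' : (j s : ℤ) + 4 * (A : ℤ) ^ 2 ≤ S s := by exact_mod_cast a2
  have b1' : 4 * (B : ℤ) ^ 2 ≤ j s' := by exact_mod_cast b1
  have b2' : (j s' : ℤ) + 4 * (B : ℤ) ^ 2 ≤ S s' := by exact_mod_cast b2
  have c1' : 4 * (A : ℤ) ^ 2 + 4 * (B : ℤ) ^ 2 + A ≤ j r := by exact_mod_cast c1
  have c2' : (j r : ℤ) + (4 * (A : ℤ) ^ 2 + 4 * (B : ℤ) ^ 2 + A) ≤ S r := by exact_mod_cast c2
  have pA : (0 : ℤ) ≤ 4 * (A : ℤ) ^ 2 := by positivity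
  have pB : (0 : ℤ) ≤ 4 * (B : ℤ) ^ 2 := by positivity
  have pA' : (0 : ℤ) ≤ (A : ℤ) := by positivity
  have hA := two (S s) (S r) (j s) (j r) A a1' a2' (by linarith) (by linarith)
  have hB : ∀ i ∈ range (2 * A + 1), ch (S s) ((j s : ℤ) + ((i : ℤ) - A)) *
      (((B : ℝ) + 1) * (ch (S s') (j s') * ch (S r) ((j r : ℤ) - ((i : ℤ) - A)))) ≤
      ∑ i' ∈ range (2 * B + 1),
        ∏ t : Fin 3, ch (S t) ((j t : ℤ) + dl s s' r ((i : ℤ) - A) ((i' : ℤ) - B) t) := by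
    intro i hi
    have hi' := Finset.mem_range.mp hi
    have hi1 : -(A : ℤ) ≤ (i : ℤ) - A := by omega
    have hi2 : (i : ℤ) - A ≤ A := by omega
    have h := two (S s') (S r) (j s') ((j r : ℤ) - ((i : ℤ) - A)) B b1' b2' (by linarith)
      (by linarith)
    have h' := mul_le_mul_of_nonneg_left h (ch_nonneg (S s) ((j s : ℤ) + ((i : ℤ) - A)))
    refine le_trans h' (le_of_eq ?_)
    rw [Finset.mul_sum]
    refine Finset.sum_congr rfl ?_
    intro i' _
    rw [hR]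
  refine le_trans ?_ (Finset.sum_le_sum hB)
  have hn : (0 : ℝ) ≤ ((B : ℝ) + 1) * ch (S s') (j s') :=
    mul_nonneg (by positivity) (ch_nonneg _ _)
  have h := mul_le_mul_of_nonneg_left hA hn
  rw [Finset.mul_sum] at h
  calc ((A : ℝ) + 1) * ((B : ℝ) + 1) * (ch (S s) (j s) * (ch (S s') (j s') * ch (S r) (j r))) =
      ((B : ℝ) + 1) * ch (S s') (j s') * (((A : ℝ) + 1) * (ch (S s) (j s) * ch (S r) (j r))) := by
        ring
    _ ≤ _ := h
    _ = _ := by
      refine Finset.sum_congr rfl ?_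
      intro i _
      ring

end Pool.Agent.N232.EX
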